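import Pool.Agent.MP_9cbfe4_an.M28
import Pool.Agent.MP_9cbfe4_an.M04

/-! Q1 of MP_9cbfe4_an, with support not uniformly hyperbolic. -/

namespace Pool.Agent.Results.MP_9cbfe4_an.SRBDimTwo

open MeasureTheory Pool.Agent.MP_9cbfe4_an

theorem result (I : Set ℝ) (hI : I.OrdConnected) (hN : I.Nontrivial) (d : ℝ) (hd : d < 2) :
    ∃ U : Set (ℝ × (ℝ × ℝ) → ℝ × ℝ), U.Nonempty ∧ Spec.OpenOn I (10 ^ 9) U ∧ ∀ F ∈ U,
      ∃ T ⊆ I, MeasurableSet T ∧ 0 < volume T ∧ ∀ t ∈ T, ∀ g,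
        Spec.Diffeo (fun z => F (t, z)) g →
        ∃ μ : Measure (ℝ × ℝ), IsProbabilityMeasure μ ∧ Ergodic (fun z => F (t, z)) μ ∧
          Spec.Hyperbolic (fun z => F (t, z)) μ ∧ Spec.SRB g μ ∧ IsCompact μ.support ∧
          ENNReal.ofReal d ≤ dimH μ.support ∧ ¬ Spec.UnifHyp (fun z => F (t, z)) μ.support :=
  bridgeI (main2All hd) hI hN

end Pool.Agent.Results.MP_9cbfe4_an.SRBDimTwo
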